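import Pool.Agent.L0h87.LE.Stm

/-! Module SML of the project LE: partial summation. -/

set_option autoImplicit false

namespace Pool.Agent.L0h41.LE

open Finset Pool.Agent.L0h87.LE

lemma ee_add (a b : ℝ) : ee (a + b) = ee a * ee b := by
  unfold ee
  rw [← Complex.exp_add]
  congr 1
  push_cast
  ring

lemma ee_eq (a : ℝ) : ee a = Complex.exp (Complex.I * ((2 * Real.pi * a : ℝ) : ℂ)) := by
  unfold ee
  congr 1
  push_cast
  ring

lemma norm_ee (a : ℝ) : ‖ee a‖ = 1 := by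
  rw [ee_eq, mul_comm, Complex.norm_exp_ofReal_mul_I]

lemma norm_ee_sub (a : ℝ) : ‖ee a - 1‖ ≤ 2 * Real.pi * |a| := by
  rw [ee_eq]
  refine (Real.norm_exp_I_mul_ofReal_sub_one_le).trans (le_of_eq ?_)
  rw [Real.norm_eq_abs, abs_mul, abs_of_pos (by positivity : (0 : ℝ) < 2 * Real.pi)]

lemma odds_succ (f : ℕ → ℂ) (N : ℕ) : ∑ n ∈ odds (N + 1), f n =
    ∑ n ∈ odds N, f n + if (N + 1) % 2 = 1 then f (N + 1) else 0 := by
  unfold odds
  rw [Finset.sum_filter, Finset.sum_filter, ← Finset.insert_Icc_right_eq_Icc_add_one (by omega : 1 ≤ N + 1),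
    Finset.sum_insert (by simp), add_comm]

theorem SML : Pool.Agent.L0h87.LE.SML := by
  intro f N E α hE hF
  obtain ⟨F, hFd⟩ : ∃ F : ℕ → ℝ, F = fun y => ∑ n ∈ odds y, f n := ⟨_, rfl⟩
  have hF0 : F 0 = 0 := by rw [hFd]; simp [odds]
  have hFs : ∀ y, ((F (y + 1) : ℝ) : ℂ) = F y + if (y + 1) % 2 = 1 then (f (y + 1) : ℂ) else 0 := by
    intro y
    have h := odds_succ (fun n => (f n : ℂ)) y
    rw [hFd]
    push_cast
    exact h
  have key : ∀ M : ℕ, S f M α = F M * ee (α * M) - ∑ n ∈ range M, (F n : ℂ) * (ee (α * (n + 1)) - ee (α * n)) := by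
    intro M
    induction M with
    | zero =>
      rw [hF0]
      simp [S, odds]
    | succ M ih =>
      have h1 : S f (M + 1) α = S f M α + if (M + 1) % 2 = 1 then (f (M + 1) : ℂ) * ee (α * ((M + 1 : ℕ) : ℝ)) else 0 := by
        unfold S
        exact odds_succ (fun n => (f n : ℂ) * ee (α * n)) M
      rw [h1, ih, Finset.sum_range_succ, hFs]
      push_cast
      split_ifs
      · ring
      · ring
  have hn : ∀ n : ℕ, ‖ee (α * (n + 1)) - ee (α * n)‖ ≤ 2 * Real.pi * |α| := by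
    intro n
    have h1 : ee (α * (n + 1)) - ee (α * n) = ee (α * n) * (ee α - 1) := by
      rw [mul_add, ee_add, mul_one]
      ring
    rw [h1, norm_mul, norm_ee, one_mul]
    exact norm_ee_sub α
  have hb : ∀ y ≤ N, ‖((F y : ℝ) : ℂ)‖ ≤ E := by
    intro y hy
    rw [Complex.norm_real, Real.norm_eq_abs, hFd]
    exact hF y hy
  rw [key N]
  calc ‖(F N : ℂ) * ee (α * N) - ∑ n ∈ range N, (F n : ℂ) * (ee (α * (n + 1)) - ee (α * n))‖
      ≤ ‖(F N : ℂ) * ee (α * N)‖ + ‖∑ n ∈ range N, (F n : ℂ) * (ee (α * (n + 1)) - ee (α * n))‖ := norm_sub_le _ _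
    _ ≤ E + ∑ n ∈ range N, E * (2 * Real.pi * |α|) := by
        refine add_le_add ?_ ((norm_sum_le _ _).trans (Finset.sum_le_sum fun n hn' => ?_))
        · rw [norm_mul, norm_ee, mul_one]
          exact hb N le_rfl
        · rw [norm_mul]
          exact mul_le_mul (hb n (Finset.mem_range.1 hn').le) (hn n) (norm_nonneg _) hE
    _ = E * (1 + 2 * Real.pi * |α| * N) := by
        rw [Finset.sum_const, Finset.card_range, nsmul_eq_mul]
        ring

end Pool.Agent.L0h41.LE
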