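import Pool.Agent.L0h41.LE.SML

/-! Module BES of the project LE: a dual large sieve on the odd integers. -/

set_option autoImplicit false

namespace Pool.Agent.L0h41.LE

open Finset Pool.Agent.L0h87.LE

lemma sum_odds (g : ℕ → ℂ) (N : ℕ) : ∑ n ∈ odds N, g n = ∑ s ∈ range ((N + 1) / 2), g (2 * s + 1) := by
  unfold odds
  refine Finset.sum_nbij' (fun n => n / 2) (fun s => 2 * s + 1) ?_ ?_ ?_ ?_ ?_
  · intro n hn
    simp only [mem_filter, mem_Icc] at hn
    simp only [mem_range]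
    omega
  · intro s hs
    simp only [mem_range] at hs
    simp only [mem_filter, mem_Icc]
    omega
  · intro n hn
    simp only [mem_filter, mem_Icc] at hn
    show 2 * (n / 2) + 1 = n
    omega
  · intro s hs
    show (2 * s + 1) / 2 = s
    omega
  · intro n hn
    simp only [mem_filter, mem_Icc] at hn
    have h : 2 * (n / 2) + 1 = n := by omega
    rw [h]

lemma card_odds (N : ℕ) : ((odds N).card : ℝ) ≤ N := by
  have h : (odds N).card ≤ (Icc 1 N).card := Finset.card_filter_le _ _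
  rw [Nat.card_Icc] at h
  exact_mod_cast h

lemma conj_ee (a : ℝ) : (starRingEnd ℂ) (ee a) = ee (-a) := by
  unfold ee
  rw [← Complex.exp_conj]
  congr 1
  simp only [map_mul, Complex.conj_I, Complex.conj_ofReal, Complex.ofReal_neg, map_ofNat]
  ring

theorem BES (hG : Pool.Agent.L0h87.LE.GEO) : Pool.Agent.L0h87.LE.BES := by
  intro K N α γ C f hγ hC hf hα hsep
  obtain ⟨T, hT⟩ : ∃ T : ℕ → ℂ, T = fun n : ℕ => ∑ l ∈ range K, ee (α l * n) := ⟨_, rfl⟩
  have h1 : ∑ l ∈ range K, S f N (α l) = ∑ n ∈ odds N, (f n : ℂ) * T n := by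
    unfold S
    rw [Finset.sum_comm]
    refine Finset.sum_congr rfl fun n _ => ?_
    rw [hT, Finset.mul_sum]
  have h2 : ‖∑ n ∈ odds N, (f n : ℂ) * T n‖ ≤ C * ∑ n ∈ odds N, ‖T n‖ := by
    refine (norm_sum_le _ _).trans ?_
    rw [Finset.mul_sum]
    refine Finset.sum_le_sum fun n _ => ?_
    rw [norm_mul, Complex.norm_real, Real.norm_eq_abs]
    exact mul_le_mul_of_nonneg_right (hf n) (norm_nonneg _)
  have h3 : (∑ n ∈ odds N, ‖T n‖) ^ 2 ≤ N * ∑ n ∈ odds N, ‖T n‖ ^ 2 := by
    refine (sq_sum_le_card_mul_sum_sq).trans ?_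
    exact mul_le_mul_of_nonneg_right (card_odds N) (Finset.sum_nonneg fun _ _ => by positivity)
  have hTT : ∀ n, ((‖T n‖ ^ 2 : ℝ) : ℂ) = ∑ l ∈ range K, ∑ l' ∈ range K, ee ((α l - α l') * n) := by
    intro n
    rw [Complex.ofReal_pow, ← Complex.mul_conj', hT]
    simp only [map_sum]
    rw [Finset.sum_mul_sum]
    refine Finset.sum_congr rfl fun l _ => Finset.sum_congr rfl fun l' _ => ?_
    rw [conj_ee, ← ee_add]
    congr 1
    ring
  have h4 : ((∑ n ∈ odds N, ‖T n‖ ^ 2 : ℝ) : ℂ) =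
      ∑ l ∈ range K, ∑ l' ∈ range K, ∑ n ∈ odds N, ee ((α l - α l') * n) := by
    rw [Complex.ofReal_sum, Finset.sum_congr rfl fun n _ => hTT n, Finset.sum_comm]
    refine Finset.sum_congr rfl fun l _ => ?_
    rw [Finset.sum_comm]
  have h5 : ∀ l ∈ range K, ∀ l' ∈ range K, ‖∑ n ∈ odds N, ee ((α l - α l') * n)‖ ≤
      (if l = l' then (N : ℝ) else 0) + 1 / (4 * γ) := by
    intro l hl l' hl'
    rw [mem_range] at hl hl'
    by_cases h : l = l'
    · rw [if_pos h]
      have hc : ‖∑ n ∈ odds N, ee ((α l - α l') * n)‖ ≤ N := by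
        refine (norm_sum_le _ _).trans ?_
        rw [Finset.sum_congr rfl fun n _ => norm_ee _, Finset.sum_const, nsmul_eq_mul, mul_one]
        exact card_odds N
      have : 0 ≤ 1 / (4 * γ) := by positivity
      linarith
    · rw [if_neg h, zero_add]
      have hs := hsep l hl l' hl' h
      have hne : α l - α l' ≠ 0 := by
        intro h0
        rw [h0, abs_zero] at hs
        linarith
      have hle : |α l - α l'| ≤ 1 / 4 := by
        have := abs_sub (α l) (α l')
        have e1 := hα l hl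
        have e2 := hα l' hl'
        have e3 : |α l - α l'| ≤ |α l| + |α l'| := by
          rw [sub_eq_add_neg, ← abs_neg (α l')]
          exact abs_add_le _ _
        linarith
      have hg := hG (α l - α l') ((N + 1) / 2) hne hle
      rw [sum_odds]
      have e4 : ∀ s ∈ range ((N + 1) / 2), ee ((α l - α l') * ((2 * s + 1 : ℕ) : ℝ)) = ee ((α l - α l') * (2 * s + 1)) := by
        intro s _
        push_cast
        rfl
      rw [Finset.sum_congr rfl e4]
      refine hg.trans ?_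
      apply one_div_le_one_div_of_le (by positivity)
      linarith
  have h6 : ∑ n ∈ odds N, ‖T n‖ ^ 2 ≤ K * N + K ^ 2 / (4 * γ) := by
    have h0 : 0 ≤ ∑ n ∈ odds N, ‖T n‖ ^ 2 := Finset.sum_nonneg fun _ _ => by positivity
    have e1 : ∑ n ∈ odds N, ‖T n‖ ^ 2 = ‖((∑ n ∈ odds N, ‖T n‖ ^ 2 : ℝ) : ℂ)‖ := by
      rw [Complex.norm_real, Real.norm_eq_abs, abs_of_nonneg h0]
    rw [e1, h4]
    refine (norm_sum_le _ _).trans ?_
    calc ∑ l ∈ range K, ‖∑ l' ∈ range K, ∑ n ∈ odds N, ee ((α l - α l') * n)‖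
        ≤ ∑ l ∈ range K, ((N : ℝ) + K * (1 / (4 * γ))) := by
          refine Finset.sum_le_sum fun l hl => (norm_sum_le _ _).trans ?_
          refine (Finset.sum_le_sum fun l' hl' => h5 l hl l' hl').trans (le_of_eq ?_)
          rw [Finset.sum_add_distrib, Finset.sum_ite_eq, if_pos hl, Finset.sum_const, Finset.card_range, nsmul_eq_mul]
      _ = K * N + K ^ 2 / (4 * γ) := by
          rw [Finset.sum_const, Finset.card_range, nsmul_eq_mul]
          ring
  rw [h1]
  calc ‖∑ n ∈ odds N, (f n : ℂ) * T n‖ ^ 2 ≤ (C * ∑ n ∈ odds N, ‖T n‖) ^ 2 :=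
        pow_le_pow_left₀ (norm_nonneg _) h2 2
    _ = C ^ 2 * (∑ n ∈ odds N, ‖T n‖) ^ 2 := by ring
    _ ≤ C ^ 2 * (N * (K * N + K ^ 2 / (4 * γ))) := by
        refine mul_le_mul_of_nonneg_left (h3.trans ?_) (by positivity)
        exact mul_le_mul_of_nonneg_left h6 (Nat.cast_nonneg N)
    _ = C ^ 2 * N * (K * N + K ^ 2 / (4 * γ)) := by ring

end Pool.Agent.L0h41.LE
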